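import Pool.Agent.Helper345.SM.ctx_exists
import Pool.Agent.Helper345.SM.T_erg
import Pool.Agent.Helper345.SM.final
import Pool.Agent.Helper345.SM.XX_standard
import Pool.Agent.Helper345.SM.Bridge

/-!
# MP_b9bb23_an: an ergodic automorphism with spectral multiplicities {3, 4}

The definitions used in the statement (`SM345.IsSpectralDecomposition`, `SM345.HasMultiplicities`
and the Borel sigma-algebra on the circle) are in `Pool/Agent/Helper345/SM/Stmt.lean`.
-/

open MeasureTheory

namespace Pool.Agent.Results.MP_b9bb23_an.ThreeFour

open SM345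

/-- There is an ergodic automorphism `T` of a standard probability space whose set of spectral
multiplicities is `{3, 4}`: the Koopman operator of `T` on `L²₀(μ)` is unitarily equivalent to
multiplication by `z` on the Hilbert sum of `3` copies of `L²(σ₁)` and `4` copies of `L²(σ₂)`, with
nonzero mutually singular finite measures `σ₁, σ₂` on the circle. -/
theorem result : ∃ (Y : Type) (_ : MeasurableSpace Y) (_ : StandardBorelSpace Y) (μ : Measure Y)
    (_ : IsProbabilityMeasure μ) (T : Y ≃ᵐ Y), Ergodic T μ ∧ HasMultiplicities μ T 3 4 := by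
  obtain ⟨c⟩ := ctx_exists
  have hprob : IsProbabilityMeasure c.μ := c.hμ.prob
  exact ⟨X, instMSXX Om pP, XX_standard pP, c.μ, hprob, c.G, T_erg c, bridge _ _ c.hG 3 4 (final c)⟩

end Pool.Agent.Results.MP_b9bb23_an.ThreeFour
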